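import Pool.Agent.N662.SE.Stm

/-!
# SE/UPD: the upper bound `ν ≤ 3/4` from CONC, RATE, CURV, PP (helper700)
-/

set_option autoImplicit false

open MeasureTheory ProbabilityTheory Filter Topology

namespace Pool.Agent.N700.SE.UPD

open TH967.DP Pool.Agent.N662.SE

variable {d : ℕ}

lemma part_univ_pos (hd : 1 ≤ d) (β : ℝ) (h : Fin d → ℝ) (η : ℕ → (Fin d → ℤ) → ℝ) (n : ℕ) :
    0 < part β h η n Set.univ := by
  unfold part
  have : Nonempty (Fin n → Step d) := ⟨fun _ => (⟨0, hd⟩, true)⟩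
  apply Finset.sum_pos
  · intro w _
    rw [Set.indicator_univ]
    exact Real.exp_pos _
  · exact Finset.univ_nonempty

lemma part_le {ι : Type} (T : Finset ι) {n : ℕ} (B : ι → Set (Fin n → Step d))
    (A : Set (Fin n → Step d)) (β : ℝ) (h : Fin d → ℝ) (η : ℕ → (Fin d → ℤ) → ℝ)
    (hA : ∀ w ∈ A, ∃ t ∈ T, w ∈ B t) : part β h η n A ≤ ∑ t ∈ T, part β h η n (B t) := by
  unfold part
  rw [Finset.sum_comm]
  apply Finset.sum_le_sum
  intro w _
  have h0 : ∀ t ∈ T, 0 ≤ (B t).indicator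
      (fun w => Real.exp (β * energy η w + ∑ k, h k * (pos w n k : ℝ))) w := fun t _ =>
    Set.indicator_nonneg (fun _ _ => (Real.exp_pos _).le) _
  by_cases hw : w ∈ A
  · obtain ⟨t, ht, hwt⟩ := hA w hw
    rw [Set.indicator_of_mem hw]
    refine le_trans ?_ (Finset.single_le_sum h0 ht)
    rw [Set.indicator_of_mem hwt]
  · rw [Set.indicator_of_notMem hw]
    exact Finset.sum_nonneg h0

lemma part_compl (β : ℝ) (h : Fin d → ℝ) (η : ℕ → (Fin d → ℤ) → ℝ) (n : ℕ)
    (A : Set (Fin n → Step d)) :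
    part β h η n A + part β h η n Aᶜ = part β h η n Set.univ := by
  unfold part
  rw [← Finset.sum_add_distrib]
  apply Finset.sum_congr rfl
  intro w _
  rw [Set.indicator_univ]
  by_cases hw : w ∈ A
  · rw [Set.indicator_of_mem hw, Set.indicator_of_notMem (by simpa using hw), add_zero]
  · rw [Set.indicator_of_notMem hw, Set.indicator_of_mem (by simpa using hw), zero_add]

/-- the deterministic estimate -/
lemma det (hp : S_PP) (hd : 1 ≤ d) {β : ℝ} {h v : Fin d → ℝ} {η : ℕ → (Fin d → ℤ) → ℝ} {n : ℕ}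
    {fr : (Fin d → ℝ) → ℕ → ℝ} {φ : (Fin d → ℝ) → ℝ} {C E R σ Er : ℝ}
    (hfr : ∀ h n, fr h n ≤ n * φ h) (hlow : n * φ h ≤ fr h n + Er)
    (hcurv : ∀ (k : Fin d) (s : ℝ), |s| ≤ 1 →
      φ (h + Pi.single k s) ≤ φ h + s * v k + C * s ^ 2) (hC : 0 ≤ C)
    (hσ0 : 0 < σ) (hσ1 : σ ≤ 1)
    (ha : fr h n - E ≤ Real.log (part β h η n Set.univ))
    (hb : ∀ i ≤ n, ∀ k : Fin d, ∀ s : ℝ, s = σ ∨ s = -σ →
      Real.log (part β (h + Pi.single k s) η i Set.univ) ≤ fr (h + Pi.single k s) i + E)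
    (hc : ∀ i ≤ n, ∀ z : Fin d → ℤ, (∀ j, |z j| ≤ n) →
      Real.log (part β h (fun j y => η (i + j) (z + y)) (n - i) Set.univ) ≤ fr h (n - i) + E) :
    1 - 2 * d * (n + 1) * Real.exp (-(σ * R) + C * n * σ ^ 2 + 3 * E + Er) ≤
      prob β h η n {w | ∀ i : ℕ, i ≤ n → ∀ k, |(pos w i k : ℝ) - i * v k| ≤ R} := by
  set A : Set (Fin n → Step d) :=
    {w | ∀ i : ℕ, i ≤ n → ∀ k, |(pos w i k : ℝ) - i * v k| ≤ R} with hA
  have hZ := part_univ_pos hd β h η n
  have piece : ∀ i ≤ n, ∀ k : Fin d, ∀ s : ℝ, s = σ ∨ s = -σ →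
      part β h η n {w | s * i * v k + σ * R ≤ s * (pos w i k : ℝ)} ≤
        Real.exp (n * φ h - σ * R + C * n * σ ^ 2 + 2 * E) := by
    intro i hi k s hs
    have h1 := hp d β h η n i hi k s (s * i * v k + σ * R) (fr h (n - i) + E) (hc i hi)
    have hs2 : s ^ 2 = σ ^ 2 := by rcases hs with rfl | rfl <;> ring
    have hs1 : |s| ≤ 1 := by
      rcases hs with rfl | rfl
      · rwa [abs_of_pos hσ0]
      · rwa [abs_neg, abs_of_pos hσ0]
    have h2 : part β (h + Pi.single k s) η i Set.univ ≤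
        Real.exp (fr (h + Pi.single k s) i + E) :=
      (Real.log_le_iff_le_exp (part_univ_pos hd _ _ _ _)).1 (hb i hi k s hs)
    refine h1.trans ?_
    refine (mul_le_mul_of_nonneg_left h2 (Real.exp_pos _).le).trans ?_
    rw [← Real.exp_add]
    apply Real.exp_le_exp.2
    have h3 := hfr h (n - i)
    have h4 := hfr (h + Pi.single k s) i
    have h5 := hcurv k s hs1
    have h6 : (i : ℝ) * φ (h + Pi.single k s) ≤ i * (φ h + s * v k + C * s ^ 2) :=
      mul_le_mul_of_nonneg_left h5 (Nat.cast_nonneg _)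
    have hin : (i : ℝ) ≤ n := by exact_mod_cast hi
    have h7 : C * i * σ ^ 2 ≤ C * n * σ ^ 2 := by
      apply mul_le_mul_of_nonneg_right _ (sq_nonneg _)
      exact mul_le_mul_of_nonneg_left hin hC
    have h8 : ((n - i : ℕ) : ℝ) = n - i := Nat.cast_sub hi
    rw [h8] at h3
    rw [hs2] at h6
    linarith
  have hcov : part β h η n Aᶜ ≤ ∑ t ∈ Finset.range (n + 1) ×ˢ (Finset.univ : Finset (Fin d × Bool)),
      part β h η n {w | (if t.2.2 then σ else -σ) * t.1 * v t.2.1 + σ * R ≤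
        (if t.2.2 then σ else -σ) * (pos w t.1 t.2.1 : ℝ)} := by
    apply part_le
    intro w hw
    have hw' : ¬ ∀ i : ℕ, i ≤ n → ∀ k, |(pos w i k : ℝ) - i * v k| ≤ R := hw
    push Not at hw'
    obtain ⟨i, hi, k, hik⟩ := hw'
    rcases lt_abs.1 hik with h1 | h1
    · refine ⟨(i, k, true), ?_, ?_⟩
      · simp only [Finset.mem_product, Finset.mem_range, Finset.mem_univ, and_true]
        omega
      · show (if true then σ else -σ) * i * v k + σ * R ≤ (if true then σ else -σ) * (pos w i k : ℝ)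
        simp only [if_true]
        have h2 := mul_lt_mul_of_pos_left h1 hσ0
        linarith
    · refine ⟨(i, k, false), ?_, ?_⟩
      · simp only [Finset.mem_product, Finset.mem_range, Finset.mem_univ, and_true]
        omega
      · show (if false then σ else -σ) * i * v k + σ * R ≤ (if false then σ else -σ) * (pos w i k : ℝ)
        simp only [Bool.false_eq_true, if_false]
        have h2 := mul_lt_mul_of_pos_left h1 hσ0
        linarith
  have hcov2 : part β h η n Aᶜ ≤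
      2 * d * (n + 1) * Real.exp (n * φ h - σ * R + C * n * σ ^ 2 + 2 * E) := by
    refine hcov.trans ?_
    refine (Finset.sum_le_card_nsmul _ _
      (Real.exp (n * φ h - σ * R + C * n * σ ^ 2 + 2 * E)) ?_).trans ?_
    · intro t ht
      simp only [Finset.mem_product, Finset.mem_range, Finset.mem_univ, and_true] at ht
      apply piece t.1 (by omega) t.2.1
      by_cases h1 : t.2.2 = true
      · left; rw [if_pos h1]
      · right; rw [if_neg h1]
    · rw [nsmul_eq_mul, Finset.card_product, Finset.card_range, Finset.card_univ, Fintype.card_prod,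
        Fintype.card_fin, Fintype.card_bool]
      push_cast
      apply le_of_eq
      ring
  have hZ2 : Real.exp (n * φ h - Er - E) ≤ part β h η n Set.univ := by
    rw [← Real.exp_log hZ]
    apply Real.exp_le_exp.2
    linarith
  have hsplit := part_compl β h η n A
  have hprob : prob β h η n A = 1 - part β h η n Aᶜ / part β h η n Set.univ := by
    unfold prob
    rw [← hsplit] at hZ ⊢
    field_simp
    ring
  rw [hprob]
  have hq : part β h η n Aᶜ / part β h η n Set.univ ≤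
      2 * d * (n + 1) * Real.exp (-(σ * R) + C * n * σ ^ 2 + 3 * E + Er) := by
    rw [div_le_iff₀ hZ]
    calc part β h η n Aᶜ ≤ 2 * d * (n + 1) * Real.exp (n * φ h - σ * R + C * n * σ ^ 2 + 2 * E) :=
          hcov2
      _ = 2 * d * (n + 1) * (Real.exp (-(σ * R) + C * n * σ ^ 2 + 3 * E + Er) *
            Real.exp (n * φ h - Er - E)) := by
          rw [← Real.exp_add]
          congr 2
          ring
      _ ≤ 2 * d * (n + 1) * (Real.exp (-(σ * R) + C * n * σ ^ 2 + 3 * E + Er) *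
            part β h η n Set.univ) := by
          apply mul_le_mul_of_nonneg_left _ (by positivity)
          exact mul_le_mul_of_nonneg_left hZ2 (Real.exp_pos _).le
      _ = _ := by ring
  linarith

/-! ### Asymptotics -/

lemma ev_pow (B a a' : ℝ) (h : a < a') : ∀ᶠ n : ℕ in atTop, B * (n : ℝ) ^ a ≤ (n : ℝ) ^ a' := by
  have h1 := (tendsto_rpow_neg_atTop (y := a' - a) (by linarith)).const_mul B
  rw [mul_zero] at h1
  have h2 := (h1.comp tendsto_natCast_atTop_atTop).eventually (gt_mem_nhds one_pos)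
  filter_upwards [h2, eventually_ge_atTop 1] with n hn hn1
  have hn0 : (0 : ℝ) < n := by exact_mod_cast hn1
  simp only [Function.comp_apply] at hn
  calc B * (n : ℝ) ^ a = B * (n : ℝ) ^ (-(a' - a)) * (n : ℝ) ^ a' := by
        rw [mul_assoc, ← Real.rpow_add hn0]
        congr 2
        ring
    _ ≤ 1 * (n : ℝ) ^ a' := mul_le_mul_of_nonneg_right hn.le (Real.rpow_nonneg hn0.le _)
    _ = (n : ℝ) ^ a' := one_mul _

lemma ev_log (A ε : ℝ) (hA : 0 < A) (hε : 0 < ε) : ∀ᶠ n : ℕ in atTop,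
    Real.log (A * (n + 1)) ≤ (n : ℝ) ^ ε := by
  filter_upwards [ev_pow ((2 * A) ^ (ε / 2) / (ε / 2)) (ε / 2) ε (by linarith),
    eventually_ge_atTop 1] with n hn hn1
  have hn0 : (1 : ℝ) ≤ n := by exact_mod_cast hn1
  refine le_trans ?_ hn
  have h1 : Real.log (A * (n + 1)) ≤ Real.log (2 * A * n) := by
    apply Real.log_le_log (by positivity)
    nlinarith
  have h2 := Real.log_le_rpow_div (x := 2 * A * n) (ε := ε / 2) (by positivity) (by linarith)
  rw [Real.mul_rpow (by positivity) (by positivity)] at h2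
  calc Real.log (A * (n + 1)) ≤ (2 * A) ^ (ε / 2) * (n : ℝ) ^ (ε / 2) / (ε / 2) := h1.trans h2
    _ = _ := by ring

lemma asy {d : ℕ} (hd : 1 ≤ d) (C1 κ b c c1 : ℝ) (hκ : 0 < κ) (hc1 : 1 / 2 < c1) (hcc : c < c1)
    (hb : c1 < 2 * b - 1) : ∀ᶠ n : ℕ in atTop,
    2 * d * (n + 1) * Real.exp (-(κ / 2 * (n : ℝ) ^ (2 * b - 1)) + 3 * (n : ℝ) ^ c1 +
      C1 * Real.sqrt n * Real.log (n + 1)) ≤ Real.exp (-(n : ℝ) ^ c) := by
  have hd' : (0 : ℝ) < d := by exact_mod_cast hd
  filter_upwards [ev_log (2 * d) c1 (by positivity) (by linarith),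
    ev_log 1 ((c1 - 1 / 2) / 2) one_pos (by linarith),
    ev_pow |C1| (1 / 2 + (c1 - 1 / 2) / 2) c1 (by linarith),
    ev_pow 1 c c1 hcc, ev_pow (12 / κ) c1 (2 * b - 1) hb, eventually_ge_atTop 1]
    with n e1 e2 e3 e4 e5 hn1
  have hn0 : (1 : ℝ) ≤ n := by exact_mod_cast hn1
  have hnp : (0 : ℝ) < n := by linarith
  have h1 : 2 * (d : ℝ) * (n + 1) ≤ Real.exp ((n : ℝ) ^ c1) := by
    rw [← Real.exp_log (show 0 < 2 * (d : ℝ) * (n + 1) by positivity)]
    exact Real.exp_le_exp.2 e1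
  rw [one_mul] at e2 e4
  have h2 : C1 * Real.sqrt n * Real.log (n + 1) ≤ (n : ℝ) ^ c1 := by
    refine le_trans ?_ e3
    have hl : 0 ≤ Real.log ((n : ℝ) + 1) := Real.log_nonneg (by linarith)
    calc C1 * Real.sqrt n * Real.log (n + 1) ≤ |C1| * Real.sqrt n * Real.log (n + 1) := by
          apply mul_le_mul_of_nonneg_right _ hl
          exact mul_le_mul_of_nonneg_right (le_abs_self _) (Real.sqrt_nonneg _)
      _ ≤ |C1| * Real.sqrt n * (n : ℝ) ^ ((c1 - 1 / 2) / 2) :=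
          mul_le_mul_of_nonneg_left e2 (by positivity)
      _ = |C1| * (n : ℝ) ^ (1 / 2 + (c1 - 1 / 2) / 2) := by
          rw [Real.sqrt_eq_rpow, mul_assoc, ← Real.rpow_add hnp]
  have h3 : 6 * (n : ℝ) ^ c1 ≤ κ / 2 * (n : ℝ) ^ (2 * b - 1) := by
    have := mul_le_mul_of_nonneg_left e5 (show 0 ≤ κ / 2 by positivity)
    calc 6 * (n : ℝ) ^ c1 = κ / 2 * (12 / κ * (n : ℝ) ^ c1) := by field_simp; ring
      _ ≤ _ := this
  calc 2 * d * (n + 1) * Real.exp (-(κ / 2 * (n : ℝ) ^ (2 * b - 1)) + 3 * (n : ℝ) ^ c1 +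
        C1 * Real.sqrt n * Real.log (n + 1)) ≤
        Real.exp ((n : ℝ) ^ c1) * Real.exp (-(κ / 2 * (n : ℝ) ^ (2 * b - 1)) + 3 * (n : ℝ) ^ c1 +
          C1 * Real.sqrt n * Real.log (n + 1)) :=
        mul_le_mul_of_nonneg_right h1 (Real.exp_pos _).le
    _ = Real.exp ((n : ℝ) ^ c1 + (-(κ / 2 * (n : ℝ) ^ (2 * b - 1)) + 3 * (n : ℝ) ^ c1 +
          C1 * Real.sqrt n * Real.log (n + 1))) := (Real.exp_add _ _).symm
    _ ≤ Real.exp (-(n : ℝ) ^ c) := by
        apply Real.exp_le_exp.2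
        linarith

/-- summability of the probabilities of the exceptional events -/
lemma summ (d : ℕ) (K ε : ℝ) (hε : 0 < ε) : Summable (fun n : ℕ =>
    ((2 * d * (n + 1) + (n + 1) * (2 * n + 1) ^ d : ℝ)) * (2 * Real.exp (K - (n : ℝ) ^ ε))) := by
  obtain ⟨N, hN⟩ := exists_nat_gt ((d + 4 : ℝ) / ε)
  have hN' : (d + 4 : ℝ) ≤ ε * N := by
    rw [div_lt_iff₀ hε] at hN
    linarith
  have h1 := (Real.tendsto_pow_mul_exp_neg_atTop_nhds_zero N).comp
    ((tendsto_rpow_atTop hε).comp tendsto_natCast_atTop_atTop)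
  set D : ℝ := (4 * d + 2 * 3 ^ d) * (2 * Real.exp K) with hD
  have hDp : 0 < D := by positivity
  have h2 := h1.eventually (gt_mem_nhds (show (0 : ℝ) < 1 / D by positivity))
  refine Summable.of_norm_bounded_eventually_nat (g := fun n : ℕ => 1 / (n : ℝ) ^ 2)
    (Real.summable_one_div_nat_pow.2 one_lt_two) ?_
  filter_upwards [h2, eventually_ge_atTop 1] with n hn hn1
  have hn0 : (1 : ℝ) ≤ n := by exact_mod_cast hn1
  have hnp : (0 : ℝ) < n := by linarith
  simp only [Function.comp_apply] at hn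
  rw [Real.norm_of_nonneg (by positivity), le_div_iff₀ (by positivity)]
  have hpw : (n : ℝ) ^ (d + 4) ≤ ((n : ℝ) ^ ε) ^ N := by
    rw [← Real.rpow_natCast, ← Real.rpow_natCast, ← Real.rpow_mul hnp.le]
    apply Real.rpow_le_rpow_of_exponent_le hn0
    push_cast
    exact hN'
  have hpoly : (2 * d * (n + 1) + (n + 1) * (2 * n + 1) ^ d : ℝ) ≤
      (4 * d + 2 * 3 ^ d) * (n : ℝ) ^ (d + 1) := by
    have a1 : (n : ℝ) + 1 ≤ 2 * n := by linarith
    have a2 : (2 * (n : ℝ) + 1) ^ d ≤ (3 * n) ^ d := pow_le_pow_left₀ (by positivity) (by linarith) d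
    have a3 : (n : ℝ) ≤ (n : ℝ) ^ (d + 1) := by
      calc (n : ℝ) = (n : ℝ) ^ 1 := (pow_one _).symm
        _ ≤ _ := pow_le_pow_right₀ hn0 (by omega)
    calc (2 * d * (n + 1) + (n + 1) * (2 * n + 1) ^ d : ℝ) ≤
          2 * d * (2 * n) + (2 * n) * (3 * n) ^ d := by
          apply add_le_add
          · exact mul_le_mul_of_nonneg_left a1 (by positivity)
          · exact mul_le_mul a1 a2 (by positivity) (by positivity)
      _ = 4 * d * n + 2 * 3 ^ d * (n : ℝ) ^ (d + 1) := by rw [mul_pow]; ring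
      _ ≤ 4 * d * (n : ℝ) ^ (d + 1) + 2 * 3 ^ d * (n : ℝ) ^ (d + 1) := by
          have := mul_le_mul_of_nonneg_left a3 (show (0 : ℝ) ≤ 4 * d by positivity)
          linarith
      _ = _ := by ring
  calc (2 * d * (n + 1) + (n + 1) * (2 * n + 1) ^ d : ℝ) * (2 * Real.exp (K - (n : ℝ) ^ ε)) *
        (n : ℝ) ^ 2 ≤ (4 * d + 2 * 3 ^ d) * (n : ℝ) ^ (d + 1) * (2 * Real.exp (K - (n : ℝ) ^ ε)) *
        (n : ℝ) ^ 2 := by
        apply mul_le_mul_of_nonneg_right _ (by positivity)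
        exact mul_le_mul_of_nonneg_right hpoly (by positivity)
    _ = D * ((n : ℝ) ^ (d + 3) * Real.exp (-(n : ℝ) ^ ε)) := by
        rw [hD, sub_eq_add_neg, Real.exp_add]
        ring
    _ ≤ D * (((n : ℝ) ^ ε) ^ N * Real.exp (-(n : ℝ) ^ ε)) := by
        apply mul_le_mul_of_nonneg_left _ hDp.le
        apply mul_le_mul_of_nonneg_right _ (Real.exp_pos _).le
        exact (pow_le_pow_right₀ hn0 (by omega)).trans hpw
    _ ≤ D * (1 / D) := mul_le_mul_of_nonneg_left hn.le hDp.le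
    _ = 1 := by field_simp

/-- Markov's inequality -/
lemma tail {Ω : Type} [MeasurableSpace Ω] {P : Measure Ω} {Y : Ω → ℝ} (hY : Measurable Y)
    {V l a : ℝ} (hl : 0 ≤ l)
    (h1 : ∫⁻ x, ENNReal.ofReal (Real.exp (l * Y x)) ∂P ≤ ENNReal.ofReal (Real.exp V))
    (h2 : ∫⁻ x, ENNReal.ofReal (Real.exp (-l * Y x)) ∂P ≤ ENNReal.ofReal (Real.exp V)) :
    P {x | a ≤ |Y x|} ≤ ENNReal.ofReal (2 * Real.exp (V - l * a)) := by
  have key : ∀ t : ℝ, ∫⁻ x, ENNReal.ofReal (Real.exp (t * Y x)) ∂P ≤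
      ENNReal.ofReal (Real.exp V) → P {x | ENNReal.ofReal (Real.exp (l * a)) ≤
        ENNReal.ofReal (Real.exp (t * Y x))} ≤ ENNReal.ofReal (Real.exp (V - l * a)) := by
    intro t ht
    have hm : Measurable fun x => ENNReal.ofReal (Real.exp (t * Y x)) := by fun_prop
    refine (meas_ge_le_lintegral_div hm.aemeasurable
      (ENNReal.ofReal_pos.2 (Real.exp_pos _)).ne' ENNReal.ofReal_ne_top).trans ?_
    refine (ENNReal.div_le_div_right ht _).trans ?_
    rw [← ENNReal.ofReal_div_of_pos (Real.exp_pos _), ← Real.exp_sub]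
  have hsub : {x | a ≤ |Y x|} ⊆ {x | ENNReal.ofReal (Real.exp (l * a)) ≤
      ENNReal.ofReal (Real.exp (l * Y x))} ∪ {x | ENNReal.ofReal (Real.exp (l * a)) ≤
      ENNReal.ofReal (Real.exp (-l * Y x))} := by
    intro x hx
    rcases le_abs.1 (show a ≤ |Y x| from hx) with h3 | h3
    · left
      apply ENNReal.ofReal_le_ofReal
      exact Real.exp_le_exp.2 (mul_le_mul_of_nonneg_left h3 hl)
    · right
      apply ENNReal.ofReal_le_ofReal
      apply Real.exp_le_exp.2
      have := mul_le_mul_of_nonneg_left h3 hl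
      linarith
  refine (measure_mono hsub).trans ((measure_union_le _ _).trans ?_)
  refine (add_le_add (key l h1) (key (-l) h2)).trans ?_
  rw [← ENNReal.ofReal_add (Real.exp_pos _).le (Real.exp_pos _).le, two_mul]

lemma lw_zero {Ω : Type} (ω : ℕ → (Fin d → ℤ) → Ω → ℝ) (β : ℝ) (h : Fin d → ℝ) (n : ℕ) (x : Ω) :
    lw ω β h 0 0 n x = Real.log (part β h (fun i y => ω i y x) n Set.univ) := by
  unfold lw
  simp only [zero_add]

theorem main (hc : S_CONC) (hr : S_RATE) (hk : S_CURV) (hp : S_PP) : S_UPD := by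
  intro d hd Ω _ P _ ω hω hexp β
  obtain ⟨φ, C1, hφ, hfr⟩ := hr d hd Ω P ω hω hexp β
  filter_upwards [hk d φ hφ] with h hh
  obtain ⟨v, C, hC, hcurv⟩ := hh
  refine ⟨v, ?_⟩
  intro b c hb hb1 hcb
  obtain ⟨c1, hc1, hc1b⟩ := exists_between (show max c (1 / 2) < 2 * b - 1 from
    max_lt hcb (by linarith))
  have hcc : c < c1 := lt_of_le_of_lt (le_max_left _ _) hc1
  have hc12 : 1 / 2 < c1 := lt_of_le_of_lt (le_max_right _ _) hc1
  set κ : ℝ := 1 / (2 * C + 2) with hκ
  have hκ0 : 0 < κ := by positivity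
  have hκC : C * κ ≤ 1 / 2 := by
    rw [hκ, mul_one_div, div_le_iff₀ (by positivity)]
    linarith
  have hκ1 : κ ≤ 1 := by
    rw [hκ, div_le_iff₀ (by positivity)]
    linarith
  have hmom : 0 ≤ mom P ω β := by
    unfold mom
    exact add_nonneg (integral_nonneg fun _ => (Real.exp_pos _).le)
      (integral_nonneg fun _ => (Real.exp_pos _).le)
  -- one test
  have test : ∀ n : ℕ, 16 ≤ n → ∀ (h' : Fin d → ℝ) (m : ℕ) (z : Fin d → ℤ) (j : ℕ), j ≤ n →
      P {x | (n : ℝ) ^ c1 ≤ |lw ω β h' m z j x - free P ω β h' j|} ≤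
        ENNReal.ofReal (2 * Real.exp (16 * mom P ω β - (n : ℝ) ^ (c1 - 1 / 2))) := by
    intro n hn h' m z j hj
    obtain ⟨hm, -, -, hl⟩ := hc d hd Ω P ω hω hexp β h' m z j
    have hn' : (16 : ℝ) ≤ n := by exact_mod_cast hn
    have hnp : (0 : ℝ) < n := by linarith
    have hjn : (j : ℝ) ≤ n := by exact_mod_cast hj
    set l : ℝ := 1 / Real.sqrt n with hld
    have hs4 : 4 ≤ Real.sqrt n := by
      rw [show (4 : ℝ) = Real.sqrt 16 by
        rw [show (16 : ℝ) = 4 ^ 2 by norm_num, Real.sqrt_sq (by norm_num)]]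
      exact Real.sqrt_le_sqrt hn'
    have hsp : 0 < Real.sqrt n := by linarith
    have hl0 : 0 ≤ l := by positivity
    have hl4 : l ≤ 1 / 4 := one_div_le_one_div_of_le (by norm_num) hs4
    have hl2 : l ^ 2 * j ≤ 1 := by
      rw [hld, div_pow, one_pow, Real.sq_sqrt hnp.le, one_div, inv_mul_le_iff₀ hnp, mul_one]
      exact hjn
    have hV : ∀ t : ℝ, t ^ 2 = l ^ 2 → ENNReal.ofReal (Real.exp (16 * mom P ω β * t ^ 2 * j)) ≤
        ENNReal.ofReal (Real.exp (16 * mom P ω β)) := by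
      intro t ht
      apply ENNReal.ofReal_le_ofReal
      apply Real.exp_le_exp.2
      rw [ht, mul_assoc]
      calc 16 * mom P ω β * (l ^ 2 * j) ≤ 16 * mom P ω β * 1 :=
            mul_le_mul_of_nonneg_left hl2 (by positivity)
        _ = _ := mul_one _
    have ht := tail (P := P) (Y := fun x => lw ω β h' m z j x - free P ω β h' j)
      (hm.sub_const _) (V := 16 * mom P ω β) (a := (n : ℝ) ^ c1) hl0
      ((hl l (by rw [abs_of_nonneg hl0]; exact hl4)).trans (hV l rfl))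
      ((hl (-l) (by rw [abs_neg, abs_of_nonneg hl0]; exact hl4)).trans (hV (-l) (neg_sq l)))
    have e : l * (n : ℝ) ^ c1 = (n : ℝ) ^ (c1 - 1 / 2) := by
      rw [hld, Real.sqrt_eq_rpow, one_div, ← Real.rpow_neg hnp.le, ← Real.rpow_add hnp]
      congr 1
      ring
    rw [e] at ht
    exact ht
  -- the exceptional events
  let σ : ℕ → ℝ := fun n => κ * (n : ℝ) ^ (b - 1)
  let sg : ℕ → Bool → ℝ := fun n t => if t then σ n else -σ n
  let box : ℕ → Finset (Fin d → ℤ) := fun n => Finset.Icc (fun _ => -(n : ℤ)) (fun _ => (n : ℤ))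
  let B1 : ℕ → ℕ × Fin d × Bool → Set Ω := fun n t =>
    {x | (n : ℝ) ^ c1 ≤ |lw ω β (h + Pi.single t.2.1 (sg n t.2.2)) 0 0 t.1 x -
      free P ω β (h + Pi.single t.2.1 (sg n t.2.2)) t.1|}
  let B2 : ℕ → ℕ × (Fin d → ℤ) → Set Ω := fun n t =>
    {x | (n : ℝ) ^ c1 ≤ |lw ω β h t.1 t.2 (n - t.1) x - free P ω β h (n - t.1)|}
  let T1 : ℕ → Finset (ℕ × Fin d × Bool) := fun n => Finset.range (n + 1) ×ˢ Finset.univ
  let T2 : ℕ → Finset (ℕ × (Fin d → ℤ)) := fun n => Finset.range (n + 1) ×ˢ box n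
  let S : ℕ → Set Ω := fun n => if 16 ≤ n then (⋃ t ∈ T1 n, B1 n t) ∪ (⋃ t ∈ T2 n, B2 n t) else ∅
  have hbox : ∀ n, ((box n).card : ℝ) = (2 * n + 1) ^ d := by
    intro n
    have h1 : (box n).card = (2 * n + 1) ^ d := by
      show (Finset.Icc (fun _ : Fin d => -(n : ℤ)) (fun _ => (n : ℤ))).card = _
      rw [Pi.card_Icc]
      simp only [Int.card_Icc, Finset.prod_const, Finset.card_univ, Fintype.card_fin]
      congr 1
      omega
    rw [h1]
    push_cast
    ring
  have hS : ∀ n, P (S n) ≤ ENNReal.ofReal (((2 * d * (n + 1) + (n + 1) * (2 * n + 1) ^ d : ℝ)) *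
      (2 * Real.exp (16 * mom P ω β - (n : ℝ) ^ (c1 - 1 / 2)))) := by
    intro n
    by_cases hn : 16 ≤ n
    · show P (if 16 ≤ n then (⋃ t ∈ T1 n, B1 n t) ∪ (⋃ t ∈ T2 n, B2 n t) else ∅) ≤ _
      rw [if_pos hn]
      set p : ENNReal := ENNReal.ofReal (2 * Real.exp (16 * mom P ω β - (n : ℝ) ^ (c1 - 1 / 2)))
        with hpd
      have b1 : P (⋃ t ∈ T1 n, B1 n t) ≤ (T1 n).card • p := by
        refine (measure_biUnion_finset_le _ _).trans (Finset.sum_le_card_nsmul _ _ _ ?_)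
        intro t ht
        have ht1 : t.1 < n + 1 := Finset.mem_range.1 (Finset.mem_product.1 ht).1
        exact test n hn _ _ _ _ (by omega)
      have b2 : P (⋃ t ∈ T2 n, B2 n t) ≤ (T2 n).card • p := by
        refine (measure_biUnion_finset_le _ _).trans (Finset.sum_le_card_nsmul _ _ _ ?_)
        intro t ht
        exact test n hn _ _ _ _ (Nat.sub_le _ _)
      have c1' : ((T1 n).card : ℝ) = 2 * d * (n + 1) := by
        show (((Finset.range (n + 1) ×ˢ (Finset.univ : Finset (Fin d × Bool))).card : ℕ) : ℝ) = _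
        rw [Finset.card_product, Finset.card_range, Finset.card_univ, Fintype.card_prod,
          Fintype.card_fin, Fintype.card_bool]
        push_cast
        ring
      have c2' : ((T2 n).card : ℝ) = (n + 1) * (2 * n + 1) ^ d := by
        show (((Finset.range (n + 1) ×ˢ box n).card : ℕ) : ℝ) = _
        rw [Finset.card_product, Finset.card_range, Nat.cast_mul, hbox]
        push_cast
        ring
      refine (measure_union_le _ _).trans ((add_le_add b1 b2).trans ?_)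
      rw [← add_nsmul, nsmul_eq_mul, hpd, ← ENNReal.ofReal_natCast,
        ← ENNReal.ofReal_mul (Nat.cast_nonneg _)]
      apply ENNReal.ofReal_le_ofReal
      rw [Nat.cast_add, c1', c2']
    · show P (if 16 ≤ n then (⋃ t ∈ T1 n, B1 n t) ∪ (⋃ t ∈ T2 n, B2 n t) else ∅) ≤ _
      rw [if_neg hn, measure_empty]
      exact zero_le
  have hfin : ∑' n, P (S n) ≠ ⊤ := by
    refine ne_top_of_le_ne_top ?_ (ENNReal.tsum_le_tsum hS)
    exact (summ d (16 * mom P ω β) (c1 - 1 / 2) (by linarith)).tsum_ofReal_ne_top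
  filter_upwards [ae_eventually_notMem hfin] with x hx
  filter_upwards [hx, asy hd C1 κ b c c1 hκ0 hc12 hcc hc1b, eventually_ge_atTop 16]
    with n hxn hasy hn
  have hn' : (16 : ℝ) ≤ n := by exact_mod_cast hn
  have hnp : (0 : ℝ) < n := by linarith
  have hxn' : x ∉ (⋃ t ∈ T1 n, B1 n t) ∪ (⋃ t ∈ T2 n, B2 n t) := by
    have h1 : x ∉ (if 16 ≤ n then (⋃ t ∈ T1 n, B1 n t) ∪ (⋃ t ∈ T2 n, B2 n t) else ∅) := hxn
    rwa [if_pos hn] at h1
  rw [Set.mem_union, not_or] at hxn'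
  obtain ⟨x1, x2⟩ := hxn'
  have y1 : ∀ i ≤ n, ∀ (k : Fin d) (t : Bool),
      |lw ω β (h + Pi.single k (sg n t)) 0 0 i x - free P ω β (h + Pi.single k (sg n t)) i| <
        (n : ℝ) ^ c1 := by
    intro i hi k t
    by_contra hcon
    push Not at hcon
    apply x1
    rw [Set.mem_iUnion₂]
    refine ⟨(i, k, t), ?_, hcon⟩
    exact Finset.mem_product.2 ⟨Finset.mem_range.2 (by show i < n + 1; omega), Finset.mem_univ _⟩
  have y2 : ∀ i ≤ n, ∀ z : Fin d → ℤ, (∀ j, |z j| ≤ n) →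
      |lw ω β h i z (n - i) x - free P ω β h (n - i)| < (n : ℝ) ^ c1 := by
    intro i hi z hz
    by_contra hcon
    push Not at hcon
    apply x2
    rw [Set.mem_iUnion₂]
    refine ⟨(i, z), ?_, hcon⟩
    refine Finset.mem_product.2 ⟨Finset.mem_range.2 (by show i < n + 1; omega), ?_⟩
    show z ∈ Finset.Icc (fun _ : Fin d => -(n : ℤ)) (fun _ => (n : ℤ))
    rw [Finset.mem_Icc]
    exact ⟨fun j => (abs_le.1 (hz j)).1, fun j => (abs_le.1 (hz j)).2⟩
  have hσ0 : 0 < σ n := mul_pos hκ0 (Real.rpow_pos_of_pos hnp _)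
  have hσ1 : σ n ≤ 1 := by
    have h1 : (n : ℝ) ^ (b - 1) ≤ 1 :=
      Real.rpow_le_one_of_one_le_of_nonpos (by linarith) (by linarith)
    calc κ * (n : ℝ) ^ (b - 1) ≤ 1 * 1 := mul_le_mul hκ1 h1 (Real.rpow_nonneg hnp.le _) one_pos.le
      _ = 1 := one_mul 1
  have hdet := det (β := β) (h := h) (v := v) (η := fun i y => ω i y x) (n := n)
    (fr := fun h n => free P ω β h n) (φ := φ) (C := C) (E := (n : ℝ) ^ c1) (R := (n : ℝ) ^ b)
    (σ := σ n) (Er := C1 * Real.sqrt n * Real.log (n + 1)) hp hd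
    (fun h n => (hfr h n).1) (hfr h n).2 hcurv hC hσ0 hσ1
    (by
      have h1 := y2 0 (Nat.zero_le _) 0 (fun j => by simp)
      rw [Nat.sub_zero, lw_zero] at h1
      have h2 := (abs_lt.1 h1).1
      linarith)
    (by
      intro i hi k s hs
      rcases hs with rfl | rfl
      · have h1 := y1 i hi k true
        rw [lw_zero] at h1
        have h2 := (abs_lt.1 h1).2
        have e : sg n true = σ n := rfl
        rw [e] at h2
        linarith
      · have h1 := y1 i hi k false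
        rw [lw_zero] at h1
        have h2 := (abs_lt.1 h1).2
        have e : sg n false = -σ n := rfl
        rw [e] at h2
        linarith)
    (by
      intro i hi z hz
      have h1 := (abs_lt.1 (y2 i hi z hz)).2
      have e : Real.log (part β h (fun j y => ω (i + j) (z + y) x) (n - i) Set.univ) =
        lw ω β h i z (n - i) x := rfl
      show Real.log (part β h (fun j y => ω (i + j) (z + y) x) (n - i) Set.univ) ≤ _
      rw [e]
      linarith)
  refine le_trans ?_ hdet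
  have hexp1 : -(σ n * (n : ℝ) ^ b) + C * n * (σ n) ^ 2 ≤ -(κ / 2 * (n : ℝ) ^ (2 * b - 1)) := by
    have e1 : σ n * (n : ℝ) ^ b = κ * (n : ℝ) ^ (2 * b - 1) := by
      show κ * (n : ℝ) ^ (b - 1) * (n : ℝ) ^ b = _
      rw [mul_assoc, ← Real.rpow_add hnp]
      congr 2
      ring
    have e2 : (n : ℝ) * (σ n) ^ 2 = κ ^ 2 * (n : ℝ) ^ (2 * b - 1) := by
      show (n : ℝ) * (κ * (n : ℝ) ^ (b - 1)) ^ 2 = _
      have e3 : (n : ℝ) ^ (2 * b - 1) = n * ((n : ℝ) ^ (b - 1)) ^ 2 := by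
        rw [← Real.rpow_natCast, ← Real.rpow_mul hnp.le]
        nth_rewrite 2 [← Real.rpow_one (n : ℝ)]
        rw [← Real.rpow_add hnp]
        congr 1
        push_cast
        ring
      rw [e3]
      ring
    have hX : 0 ≤ κ * (n : ℝ) ^ (2 * b - 1) := by positivity
    have h3 : C * κ * (κ * (n : ℝ) ^ (2 * b - 1)) ≤ 1 / 2 * (κ * (n : ℝ) ^ (2 * b - 1)) :=
      mul_le_mul_of_nonneg_right hκC hX
    calc -(σ n * (n : ℝ) ^ b) + C * n * (σ n) ^ 2 =
          -(σ n * (n : ℝ) ^ b) + C * (n * (σ n) ^ 2) := by ring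
      _ = -(κ * (n : ℝ) ^ (2 * b - 1)) + C * κ * (κ * (n : ℝ) ^ (2 * b - 1)) := by
          rw [e1, e2]; ring
      _ ≤ _ := by linarith
  have hfinal : 2 * (d : ℝ) * (n + 1) * Real.exp (-(σ n * (n : ℝ) ^ b) + C * n * (σ n) ^ 2 +
      3 * (n : ℝ) ^ c1 + C1 * Real.sqrt n * Real.log (n + 1)) ≤ Real.exp (-(n : ℝ) ^ c) := by
    refine le_trans ?_ hasy
    apply mul_le_mul_of_nonneg_left _ (by positivity)
    apply Real.exp_le_exp.2
    linarith
  linarith

end Pool.Agent.N700.SE.UPD
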